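import Pool.Agent.H11.NZ.Targets

/-!
# Module OF of nz_modules: stabilisers and the conjugates of the pair
-/

set_option autoImplicit false

open Equiv (Perm)

namespace Pool.Agent.H54.NZ.OF

open Pool.Agent.H11.NZ
open Pool.Agent.H11.NY

/-- an element with non-trivial image all of whose `X`-conjugates are in `S` -/
theorem key (h : T_XC) {L Ω : Type} [Group L] [Fintype Ω] [DecidableEq Ω]
    (ψ : L →* alternatingGroup Ω) (X : Subgroup L) (h5 : 5 ≤ Fintype.card Ω)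
    (hX : XMin ψ X) (S : Subgroup L) (t : L) (ht : ∀ x ∈ X, x⁻¹ * t * x ∈ S)
    (hne : ψ t ≠ 1) : X ≤ S := by
  let C : Subgroup L :=
    { carrier := {c | ∀ x ∈ X, x⁻¹ * c * x ∈ S}
      mul_mem' := by
        intro a b ha hb x hx
        have h1 := S.mul_mem (ha x hx) (hb x hx)
        have h2 : x⁻¹ * (a * b) * x = x⁻¹ * a * x * (x⁻¹ * b * x) := by group
        rw [h2]; exact h1
      one_mem' := by
        intro x hx
        have h2 : x⁻¹ * 1 * x = 1 := by group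
        rw [h2]; exact S.one_mem
      inv_mem' := by
        intro a ha x hx
        have h1 := S.inv_mem (ha x hx)
        have h2 : x⁻¹ * a⁻¹ * x = (x⁻¹ * a * x)⁻¹ := by group
        rw [h2]; exact h1 }
  have h1 : X ≤ C := h L Ω ψ X h5 hX C (by
    intro x hx c hc y hy
    have h2 : y⁻¹ * (x * c * x⁻¹) * y = (x⁻¹ * y)⁻¹ * c * (x⁻¹ * y) := by group
    rw [h2]
    exact hc _ (X.mul_mem (X.inv_mem hx) hy)) ⟨t, ht, hne⟩
  intro x hx
  have h3 := h1 hx 1 X.one_mem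
  simpa using h3

theorem mem_of_coprime {L : Type} [Group L] (H : Subgroup L) (g : L) (m q : ℕ)
    (hm : g ^ m ∈ H) (hq : g ^ q ∈ H) (hc : Nat.Coprime m q) : g ∈ H := by
  have h1 := Nat.gcd_eq_gcd_ab m q
  have h2 : g = (g ^ m) ^ (Nat.gcdA m q) * (g ^ q) ^ (Nat.gcdB m q) := by
    rw [← zpow_natCast g m, ← zpow_natCast g q, ← zpow_mul, ← zpow_mul, ← zpow_add, ← h1,
      hc.gcd_eq_one]
    simp
  rw [h2]
  exact H.mul_mem (H.zpow_mem hm _) (H.zpow_mem hq _)

theorem conj_pow' {L : Type} [Group L] (y a : L) (m : ℕ) :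
    (y⁻¹ * a * y) ^ m = y⁻¹ * a ^ m * y := by
  have := conj_pow (i := m) (a := y⁻¹) (b := a)
  simpa using this

theorem psi_ne {L Ω : Type} [Group L] [Fintype Ω] [DecidableEq Ω]
    (ψ : L →* alternatingGroup Ω) (z y : L)
    (hz : 1 ≤ (ψ z : Perm Ω).support.card) : ψ (y⁻¹ * z * y) ≠ 1 := by
  intro h
  have h1 : ψ z = 1 := by
    have h2 : ψ z = ψ y * ψ (y⁻¹ * z * y) * (ψ y)⁻¹ := by
      rw [map_mul, map_mul, map_inv]; group
    rw [h2, h]; group
  rw [h1] at hz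
  simp at hz

/-- differences of the exponents -/
theorem aux_lt {L : Type} [Group L] (H : Subgroup L) (q : ℕ) (hq : q.Prime) (a h y : L)
    (haq : a ^ q = 1) (k k' : ℕ) (hlt : k < k') (hk' : k' < q)
    (h1 : y⁻¹ * (h * a ^ k) * y ∈ H) (h2 : y⁻¹ * (h * a ^ k') * y ∈ H) :
    y⁻¹ * a * y ∈ H := by
  apply mem_of_coprime H (y⁻¹ * a * y) (k' - k) q
  · rw [conj_pow']
    have h3 := H.mul_mem (H.inv_mem h1) h2
    have h4 : (y⁻¹ * (h * a ^ k) * y)⁻¹ * (y⁻¹ * (h * a ^ k') * y) =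
        y⁻¹ * a ^ (k' - k) * y := by
      have h5 : a ^ k' = a ^ k * a ^ (k' - k) := by
        rw [← pow_add]; congr 1; omega
      rw [h5]; group
    rw [← h4]; exact h3
  · rw [conj_pow', haq]
    have h2 : y⁻¹ * 1 * y = 1 := by group
    rw [h2]; exact H.one_mem
  · apply Nat.Coprime.symm
    rw [Nat.Prime.coprime_iff_not_dvd hq]
    intro hd
    have := Nat.le_of_dvd (by omega) hd
    omega

theorem pf_of : T_XC → T_OF := by
  intro hXC L Ω _ _ _ _ ψ X h5 hX S hXS e q p a h hP hT y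
  obtain ⟨hq, h5q, hqe, hp, hpe, haq, hah, hhp, ha1, hhz, hsup⟩ := hP
  -- membership helpers
  have hXle : X ≤ X ⊔ S := le_sup_left
  have hSle : S ≤ X ⊔ S := le_sup_right
  have hback : ∀ x ∈ X, ∀ z : L, (y * x)⁻¹ * z * (y * x) ∈ S → y⁻¹ * z * y ∈ X ⊔ S := by
    intro x hx z hz
    have h1 : y⁻¹ * z * y = x * ((y * x)⁻¹ * z * (y * x)) * x⁻¹ := by group
    rw [h1]
    exact (X ⊔ S).mul_mem ((X ⊔ S).mul_mem (hXle hx) (hSle hz)) ((X ⊔ S).inv_mem (hXle hx))
  have hfwd : ∀ x z : L, (y * x)⁻¹ * z * (y * x) = x⁻¹ * (y⁻¹ * z * y) * x := by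
    intro x z; group
  have ha : y⁻¹ * a * y ∈ X ⊔ S := by
    by_contra hna
    -- TCS gives the second alternative for all x
    have h2 : ∀ x ∈ X, ∃ κ < q, (y * x)⁻¹ * (h * a ^ κ) * (y * x) ∈ S := by
      intro x hx
      rcases hT (y * x) with h3 | h3
      · exact absurd (hback x hx a h3) hna
      · exact h3
    obtain ⟨κ₀, hκ₀, hk₀⟩ := h2 1 X.one_mem
    have hk₀' := hback 1 X.one_mem _ hk₀
    apply hXS
    apply key hXC ψ X h5 hX S (y⁻¹ * (h * a ^ κ₀) * y)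
    · intro x hx
      obtain ⟨κ, hκ, hk⟩ := h2 x hx
      have hk' := hback x hx _ hk
      have heq : κ = κ₀ := by
        rcases lt_trichotomy κ κ₀ with hlt | heq | hgt
        · exact absurd (aux_lt (X ⊔ S) q hq a h y haq κ κ₀ hlt hκ₀ hk' hk₀') hna
        · exact heq
        · exact absurd (aux_lt (X ⊔ S) q hq a h y haq κ₀ κ hgt hκ hk₀' hk') hna
      rw [heq] at hk
      rw [← hfwd]
      exact hk
    · apply psi_ne
      have h3 : h * a ^ κ₀ = a ^ κ₀ * h ^ 1 := by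
        rw [pow_one]
        exact ((Commute.pow_left (show Commute a h from hah) κ₀).eq).symm
      rw [h3]
      apply hsup
      rw [pow_one]
      intro h4
      apply hhz
      have h6 : h = (a ^ κ₀)⁻¹ := eq_inv_of_mul_eq_one_right h4
      rw [h6]
      exact (Subgroup.zpowers a).inv_mem ((Subgroup.zpowers a).pow_mem (Subgroup.mem_zpowers a) _)
  refine ⟨ha, ?_⟩
  by_contra hnh
  apply hXS
  apply key hXC ψ X h5 hX S (y⁻¹ * a * y)
  · intro x hx
    rcases hT (y * x) with h3 | ⟨κ, hκ, h3⟩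
    · rw [← hfwd]; exact h3
    · exfalso
      apply hnh
      have h4 := hback x hx _ h3
      have h5' : y⁻¹ * h * y = y⁻¹ * (h * a ^ κ) * y * ((y⁻¹ * a * y) ^ κ)⁻¹ := by
        rw [conj_pow']; group
      rw [h5']
      exact (X ⊔ S).mul_mem h4 ((X ⊔ S).inv_mem ((X ⊔ S).pow_mem ha _))
  · apply psi_ne
    have h3 : a = a ^ 1 * h ^ 0 := by simp
    rw [h3]
    apply hsup
    rw [← h3]
    exact ha1

end Pool.Agent.H54.NZ.OF
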