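import Pool.Agent.H11.NZ.Targets
import Pool.Agent.H54.NY.GN

/-!
# Module GNX of nz_modules: assembly
-/

set_option autoImplicit false

open Equiv (Perm)

namespace Pool.Agent.H54.NZ.GNX

open Pool.Agent.H11.NZ
open Pool.Agent.H11.NY

theorem infinite_of_kcover (G : Type) [Group G] (hC : KCover G) : Infinite G := by
  by_contra hinf
  rw [not_infinite_iff_finite] at hinf
  obtain ⟨L, n, φ, ⟨_, hφ, _, _⟩, hk⟩ := hC ∅ (Nat.card G + 4)
  have h1 : n ≤ Nat.card (alternatingGroup (Fin n)) :=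
    Pool.Agent.H54.NY.GN.card_alt_ge n (by omega)
  have h2 : Nat.card (alternatingGroup (Fin n)) ≤ Nat.card L :=
    Nat.card_le_card_of_surjective φ hφ
  have h3 : Nat.card L ≤ Nat.card G := Subgroup.card_le_card_group L
  omega

theorem pf_gnx : T_GFX → T_GUX → T_GNX := by
  intro hGF hGU G _ _ hC hAS
  by_cases hU : ∀ x : G, x ≠ 1 → ∀ B : ℕ, ∃ (F : Finset G) (k : ℕ), ∀ (L : Subgroup G) (n : ℕ)
      (φ : L →* alternatingGroup (Fin n)), KGood F L n φ → k ≤ n →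
        ∀ hx : x ∈ L, B < (φ ⟨x, hx⟩ : Perm (Fin n)).support.card
  · exact hGU G hC hU hAS
  · push Not at hU
    obtain ⟨x₀, hx₀, B₀, hB₀⟩ := hU
    obtain ⟨I, U, n, act, hmul, hne, hbd⟩ := hGF G x₀ B₀ (by
      intro F k
      obtain ⟨L, n, φ, hg, hk, hx, hle⟩ := hB₀ F k
      exact ⟨L, n, φ, hg, hk, hx, hle⟩)
    have hinf : Infinite G := infinite_of_kcover G hC
    have hfi : ∀ H : Subgroup G, H.index ≠ 0 → H = ⊤ :=
      fun H hH => Pool.Agent.H86.NS.pf_fi G H hH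
    have hbd' := Pool.Agent.H69.NS.pf_f1 G I U n act hmul x₀ hx₀ B₀ hbd
    have hsep := Pool.Agent.H18.NSF2.pf_f2 G hfi I U n act hmul hne hbd'
    obtain ⟨L₀, n₀, φ, ⟨hfin, hφ, _, _⟩, hk⟩ := hC ∅ 5
    have hLfin : (L₀ : Set G).Finite := Set.toFinite _
    have hcl : Subgroup.closure ((hLfin.toFinset : Finset G) : Set G) = L₀ := by
      rw [Set.Finite.coe_toFinset, Subgroup.closure_eq]
    have hns : ¬ Group.IsSolvable (Subgroup.closure ((hLfin.toFinset : Finset G) : Set G)) := by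
      rw [hcl]
      intro hs
      exact Pool.Agent.H54.NY.GN.alt_not_solvable n₀ hk (Group.isSolvable_of_surjective hφ)
    obtain ⟨g, hg⟩ := exists_ne (1 : G)
    obtain ⟨H, hH, hHs⟩ := hAS g hg
    exact Pool.Agent.H54.NS.F4.pf_f4 G hsep hLfin.toFinset hns g H hH hHs

end Pool.Agent.H54.NZ.GNX
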